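import Pool.Agent.Helper74.OKA.Defs

set_option autoImplicit false

open Set Metric Topology MeasureTheory
open scoped Manifold ContDiff

namespace Pool.Agent.Helper74.OKA

universe u

namespace C4

variable {F : Type} [NormedAddCommGroup F]
  {Y : Type u} [MetricSpace Y]
  {E : Type} [NormedAddCommGroup E]

/-- uniform continuity of the inverse of a spray along a compact set -/
lemma unif_inv {T : Type*} [TopologicalSpace T] {K : Set T} (hK : IsCompact K) (q : T → E)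
    (φ : T → Y) (hq : ContinuousOn q K) (hφ : ContinuousOn φ K) {N : Set (E × Y)}
    (hN : IsOpen N) (hKN : ∀ x ∈ K, (q x, φ x) ∈ N) (Θ : E × Y → F) (hΘ : ContinuousOn Θ N)
    (δ : ℝ) (hδ : 0 < δ) :
    ∃ ε > 0, ∀ x ∈ K, ∀ y, dist y (φ x) < ε →
      (q x, y) ∈ N ∧ dist (Θ (q x, y)) (Θ (q x, φ x)) < δ := by
  have hc : IsCompact ((fun x => (q x, φ x)) '' K) := hK.image_of_continuousOn (hq.prodMk hφ)
  have hsub : (fun x => (q x, φ x)) '' K ⊆ N := by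
    rintro _ ⟨x, hx, rfl⟩; exact hKN x hx
  obtain ⟨e, he, heN⟩ := hc.exists_thickening_subset_open hN hsub
  have hu := hc.uniformContinuousAt_of_continuousAt Θ
    (fun a ha => hΘ.continuousAt (hN.mem_nhds (hsub ha))) (Metric.dist_mem_uniformity hδ)
  obtain ⟨e', he', H⟩ := Metric.mem_uniformity_dist.1 hu
  refine ⟨min e e', lt_min he he', fun x hx y hy => ?_⟩
  have hmem : (q x, φ x) ∈ (fun x => (q x, φ x)) '' K := ⟨x, hx, rfl⟩
  have hd : dist (q x, y) (q x, φ x) = dist y (φ x) := by simp [Prod.dist_eq]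
  constructor
  · apply heN
    rw [mem_thickening_iff]
    exact ⟨_, hmem, by rw [hd]; exact lt_of_lt_of_le hy (min_le_left _ _)⟩
  · have h1 : dist (q x, φ x) (q x, y) < e' := by
      rw [dist_comm, hd]; exact lt_of_lt_of_le hy (min_le_right _ _)
    have h2 := H h1 hmem
    rw [dist_comm]; exact h2

/-- a continuous family is uniformly close to its core over a compact set -/
lemma unif_core {K : Set E} (hK : IsCompact K) (s : E × F → Y) (O : Set (E × F)) (hO : IsOpen O)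
    (hs : ContinuousOn s O) (hKO : ∀ z ∈ K, (z, (0 : F)) ∈ O) (ε : ℝ) (hε : 0 < ε) :
    ∃ θ > 0, ∀ z ∈ K, ∀ t : F, ‖t‖ < θ → dist (s (z, t)) (s (z, 0)) < ε := by
  have hc : IsCompact (K ×ˢ ({0} : Set F)) := hK.prod isCompact_singleton
  have hu := hc.uniformContinuousAt_of_continuousAt s (fun a ha => by
    obtain ⟨h1, h2⟩ := ha
    have : a = (a.1, (0 : F)) := by ext <;> simp_all
    rw [this]
    exact hs.continuousAt (hO.mem_nhds (hKO _ h1))) (Metric.dist_mem_uniformity hε)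
  obtain ⟨e', he', H⟩ := Metric.mem_uniformity_dist.1 hu
  refine ⟨e', he', fun z hz t ht => ?_⟩
  have h1 : dist (z, (0 : F)) (z, t) < e' := by
    simpa [Prod.dist_eq] using ht
  have h2 := H h1 ⟨hz, rfl⟩
  rw [dist_comm]; exact h2

end C4

section

variable (F : Type) [NormedAddCommGroup F] [NormedSpace ℂ F] [FiniteDimensional ℂ F]
  {Y : Type u} [MetricSpace Y] [ChartedSpace F Y] [IsManifold 𝓘(ℂ, F) 1 Y]
  {E : Type} [NormedAddCommGroup E] [NormedSpace ℂ E] [FiniteDimensional ℂ E]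

omit [IsManifold 𝓘(ℂ, F) 1 Y] in
/-- C4: the gluing lemma, from the nonlinear splitting for the convex set -/
theorem C4.glue_of (hSp : HasSprays F Y) (X : Set E) (hX : IsCompact X) (hXc : Convex ℝ X)
    (m : E →L[ℝ] ℝ) (t : ℝ) (hA : Approx F Y X)
    (hS : Approx F Y ((X ∩ {z | m z = t}) ×ˢ {(0 : F)}))
    (hNS : NS F X (⇑(-m)) (-t)) :
    Approx F Y (X ∩ {z | m z ≤ t}) := by
  intro U hU hXU
  have : ProperSpace E := FiniteDimensional.proper ℂ E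
  have : ProperSpace F := FiniteDimensional.proper ℂ F
  set Xm : Set E := X ∩ {z | m z ≤ t} with hXm_def
  have hXm : IsCompact Xm := hX.inter_right (isClosed_le m.continuous continuous_const)
  have hXmc : Convex ℝ Xm := hXc.inter (convex_halfSpace_le m.isLinear t)
  obtain ⟨e, he, heU⟩ := hXm.exists_cthickening_subset_open hU hXU
  set Xs : Set E := cthickening e Xm with hXs_def
  have hXs : IsCompact Xs := hXm.cthickening
  have hXsc : Convex ℝ Xs := hXmc.cthickening e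
  set V : Set E := thickening e Xm with hV_def
  have hV : IsOpen V := isOpen_thickening
  have hVXs : V ⊆ Xs := thickening_subset_cthickening e Xm
  have hXmV : Xm ⊆ V := self_subset_thickening he Xm
  -- the slice
  set S : Set E := X ∩ {z | m z = t} with hS_def
  have hScomp : IsCompact S := hX.inter_right (isClosed_eq m.continuous continuous_const)
  have hSXm : S ⊆ Xm := fun z hz => ⟨hz.1, le_of_eq hz.2⟩
  obtain ⟨W₀, hW₀, hSW₀, hW₀V, hW₀A⟩ := hS (V ×ˢ ball (0 : F) 1) (hV.prod isOpen_ball) (by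
    rintro ⟨z, w⟩ ⟨h1, h2⟩
    rw [mem_singleton_iff] at h2
    change w = 0 at h2
    exact ⟨hXmV (hSXm h1), by simp [h2]⟩)
  obtain ⟨W₁, u, hW₁, hu, hSW₁, h0u, hW₁u⟩ :=
    generalized_tube_lemma hScomp isCompact_singleton hW₀ hSW₀
  obtain ⟨r₁, hr₁, hr₁u⟩ := Metric.isOpen_iff.1 hu 0 (h0u rfl)
  set r₂ : ℝ := min r₁ 1 / 2 with hr₂_def
  have hr₂ : 0 < r₂ := by positivity
  have hr₂r₁ : r₂ < r₁ := by
    have := min_le_left r₁ 1
    rw [hr₂_def]; linarith [lt_min hr₁ one_pos]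
  have hr₂1 : r₂ < 1 := by
    have := min_le_right r₁ 1
    rw [hr₂_def]; linarith [lt_min hr₁ one_pos]
  have hW₁0 : ∀ z ∈ W₁, ∀ w : F, ‖w‖ ≤ r₂ → (z, w) ∈ W₀ := fun z hz w hw =>
    hW₁u ⟨hz, hr₁u (by simpa using lt_of_le_of_lt hw hr₂r₁)⟩
  have hW₁V : W₁ ⊆ V := fun z hz => (hW₀V (hW₁0 z hz 0 (by simpa using hr₂.le))).1
  have hclW₁ : closure W₁ ⊆ Xs := by
    have : IsClosed Xs := isClosed_cthickening
    exact this.closure_subset_iff.2 (hW₁V.trans hVXs)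
  have hclW₁c : IsCompact (closure W₁) := hXs.of_isClosed_subset isClosed_closure hclW₁
  -- splitting
  obtain ⟨U₁, U₂, hU₁, hU₂, hXU₁, hXU₂, hU₁₂, hsplit⟩ :=
    hNS W₁ hW₁ (by
      intro z hz
      apply hSW₁
      refine ⟨hz.1, ?_⟩
      have := hz.2
      simpa using this)
  have hXmU₂ : Xm ⊆ U₂ := fun z hz => hXU₂ ⟨hz.1, by simpa using hz.2⟩
  obtain ⟨W₂, hW₂, hXW₂, hW₂U, hW₂A⟩ := hA ((U₂ ∩ V) ∪ U₁) ((hU₂.inter hV).union hU₁) (by
    intro z hz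
    rcases le_total (m z) t with h | h
    · exact Or.inl ⟨hXmU₂ ⟨hz, h⟩, hXmV ⟨hz, h⟩⟩
    · exact Or.inr (hXU₁ ⟨hz, by simpa using h⟩))
  refine ⟨W₂ ∩ (U₂ ∩ V), hW₂.inter (hU₂.inter hV), fun z hz => ⟨hXW₂ hz.1, hXmU₂ hz, hXmV hz⟩,
    fun z hz => heU (hVXs hz.2.2), ?_⟩
  intro f hf ε hε
  obtain ⟨U', r, s, Θ, N, hU', hXsU', hr, hs, hs0, hN, hΘ, hsN, hNs, hΘhol⟩ :=
    hSp E Xs f U hXs hXsc hU heU hf
  have hVU' : V ⊆ U' := hVXs.trans hXsU'
  have hscont : ContinuousOn s (U' ×ˢ ball 0 r) := hs.continuousOn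
  -- the choice of rho
  obtain ⟨θ, hθ, hcore⟩ := C4.unif_core hXs s (U' ×ˢ ball 0 r) (hU'.prod isOpen_ball) hscont
    (fun z hz => ⟨hXsU' hz, mem_ball_self hr⟩) (ε / 2) (half_pos hε)
  have hrr₂ : 0 < r * r₂ := mul_pos hr hr₂
  set ρ : ℝ := min (1 / 4) (θ / (2 * (r * r₂))) with hρ_def
  have hρ : 0 < ρ := by positivity
  obtain ⟨δ, hδ, hsp⟩ := hsplit ρ hρ
  -- scalars
  have hnorm : ∀ w : F, ‖((r * r₂ : ℝ) : ℂ) • w‖ = r * r₂ * ‖w‖ := fun w => by
    rw [norm_smul, Complex.norm_real, Real.norm_of_nonneg hrr₂.le]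
  have hball : ∀ w : F, ‖w‖ ≤ 1 → ((r * r₂ : ℝ) : ℂ) • w ∈ ball (0 : F) r := fun w hw => by
    rw [mem_ball_zero_iff, hnorm]
    calc r * r₂ * ‖w‖ ≤ r * r₂ * 1 := by gcongr
      _ < r := by nlinarith
  -- the choice of eps₁
  obtain ⟨ε₁, hε₁, hinv⟩ := C4.unif_inv (T := E × F)
    (K := closure W₁ ×ˢ closedBall (0 : F) 1) (hclW₁c.prod (isCompact_closedBall 0 1))
    (fun x => x.1) (fun x => s (x.1, ((r * r₂ : ℝ) : ℂ) • x.2)) continuousOn_fst (by
      refine hscont.comp (by fun_prop) ?_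
      rintro ⟨z, w⟩ ⟨h1, h2⟩
      exact ⟨hXsU' (hclW₁ h1), hball w (by simpa using h2)⟩) hN (by
      rintro ⟨z, w⟩ ⟨h1, h2⟩
      exact (hsN z (hXsU' (hclW₁ h1)) _ (hball w (by simpa using h2))).1) Θ hΘ (r * r₂ * δ)
        (by positivity)
  -- the entire approximation of the spray
  have hf₁ : MDifferentiableOn 𝓘(ℂ, E × F) 𝓘(ℂ, F) (fun x : E × F => s (x.1, (r : ℂ) • x.2))
      (V ×ˢ ball (0 : F) 1) := by
    refine MDifferentiableOn.comp (I' := 𝓘(ℂ, E × F)) (u := U' ×ˢ ball (0 : F) r) hs ?_ ?_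
    · rw [mdifferentiableOn_iff_differentiableOn]
      fun_prop
    · rintro ⟨z, w⟩ ⟨h1, h2⟩
      refine ⟨hVU' h1, ?_⟩
      rw [mem_ball_zero_iff] at h2 ⊢
      rw [norm_smul, Complex.norm_real, Real.norm_of_nonneg hr.le]
      exact (mul_lt_iff_lt_one_right hr).2 h2
  obtain ⟨g, hg, hgs⟩ := hW₀A _ hf₁ ε₁ hε₁
  have key : ∀ z ∈ W₁, ∀ w ∈ ball (0 : F) 1, (z, g (z, (r₂ : ℂ) • w)) ∈ N ∧
      ‖Θ (z, g (z, (r₂ : ℂ) • w)) - ((r * r₂ : ℝ) : ℂ) • w‖ ≤ r * r₂ * δ := by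
    intro z hz w hw
    rw [mem_ball_zero_iff] at hw
    have h1 : (z, (r₂ : ℂ) • w) ∈ W₀ := hW₁0 z hz _ (by
      rw [norm_smul, Complex.norm_real, Real.norm_of_nonneg hr₂.le]
      calc r₂ * ‖w‖ ≤ r₂ * 1 := by gcongr
        _ = r₂ := mul_one _)
    have h2 := hgs _ h1
    have h3 : (r : ℂ) • (r₂ : ℂ) • w = ((r * r₂ : ℝ) : ℂ) • w := by
      rw [smul_smul]; push_cast; rfl
    simp only [h3] at h2
    have h4 : (z, w) ∈ closure W₁ ×ˢ closedBall (0 : F) 1 :=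
      ⟨subset_closure hz, by simpa using hw.le⟩
    obtain ⟨h5, h6⟩ := hinv (z, w) h4 _ h2
    refine ⟨h5, ?_⟩
    have h7 := (hsN z (hVU' (hW₁V hz)) _ (hball w hw.le)).2
    simp only [h7, dist_eq_norm] at h6
    exact h6.le
  -- the function eta
  set η : E × F → F := fun x =>
    ((r * r₂ : ℝ) : ℂ)⁻¹ • Θ (x.1, g (x.1, (r₂ : ℂ) • x.2)) - x.2 with hη_def
  have hc0 : ((r * r₂ : ℝ) : ℂ) ≠ 0 := by exact_mod_cast hrr₂.ne'
  have hη : HB W₁ (ball (0 : F) 1) δ η := by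
    constructor
    · refine DifferentiableOn.sub ?_ (by fun_prop)
      refine DifferentiableOn.const_smul ?_ _
      refine hΘhol (E × F) (W₁ ×ˢ ball 0 1) (fun x => x.1) (fun x => g (x.1, (r₂ : ℂ) • x.2))
        (hW₁.prod isOpen_ball) (by fun_prop) ?_ ?_
      · refine MDifferentiable.mdifferentiableOn ?_
        refine MDifferentiable.comp (I' := 𝓘(ℂ, E × F)) hg ?_
        rw [mdifferentiable_iff_differentiable]
        fun_prop
      · rintro ⟨z, w⟩ ⟨h1, h2⟩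
        exact (key z h1 w h2).1
    · rintro ⟨z, w⟩ ⟨h1, h2⟩
      have h3 : η (z, w) = ((r * r₂ : ℝ) : ℂ)⁻¹ •
          (Θ (z, g (z, (r₂ : ℂ) • w)) - ((r * r₂ : ℝ) : ℂ) • w) := by
        simp only [hη_def]
        rw [smul_sub, inv_smul_smul₀ hc0]
      rw [h3, norm_smul, norm_inv, Complex.norm_real, Real.norm_of_nonneg hrr₂.le,
        inv_mul_le_iff₀ hrr₂]
      exact (key z h1 w h2).2
  obtain ⟨a, b, ha, hb, hab, -⟩ := hsp η hη
  have h0 : (0 : F) ∈ ball (0 : F) (1 / 2) := by simp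
  have hρ4 : ρ ≤ 1 / 4 := min_le_left _ _
  have haρ : ∀ z ∈ U₁, ‖a (z, 0)‖ ≤ 1 / 4 := fun z hz => (ha.2 (z, 0) ⟨hz, h0⟩).trans hρ4
  have hbρ : ∀ z ∈ U₂, ‖b (z, 0)‖ ≤ 1 / 4 := fun z hz => (hb.2 (z, 0) ⟨hz, h0⟩).trans hρ4
  -- the glued map
  set F₂ : E → Y := fun z => s (z, ((r * r₂ : ℝ) : ℂ) • b (z, 0)) with hF₂_def
  set F₁ : E → Y := fun z => g (z, (r₂ : ℂ) • a (z, 0)) with hF₁_def
  have hF₂ : MDifferentiableOn 𝓘(ℂ, E) 𝓘(ℂ, F) F₂ (U₂ ∩ V) := by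
    refine MDifferentiableOn.comp (I' := 𝓘(ℂ, E × F)) (u := U' ×ˢ ball (0 : F) r) hs ?_ ?_
    · rw [mdifferentiableOn_iff_differentiableOn]
      refine DifferentiableOn.prodMk differentiableOn_id ?_
      refine DifferentiableOn.const_smul ?_ _
      exact hb.1.comp (by fun_prop) (fun z hz => ⟨hz.1, h0⟩)
    · intro z hz
      exact ⟨hVU' hz.2, hball _ ((hbρ z hz.1).trans (by norm_num))⟩
  have hF₁ : MDifferentiableOn 𝓘(ℂ, E) 𝓘(ℂ, F) F₁ U₁ := by
    refine MDifferentiable.comp_mdifferentiableOn (I' := 𝓘(ℂ, E × F)) hg ?_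
    rw [mdifferentiableOn_iff_differentiableOn]
    refine DifferentiableOn.prodMk differentiableOn_id ?_
    refine DifferentiableOn.const_smul ?_ _
    exact ha.1.comp (by fun_prop) (fun z hz => ⟨hz, h0⟩)
  have hF₁₂ : ∀ z ∈ U₁ ∩ (U₂ ∩ V), F₂ z = F₁ z := by
    intro z hz
    have hzW : z ∈ W₁ := hU₁₂ ⟨hz.1, hz.2.1⟩
    have h1 := hab z ⟨hz.1, hz.2.1⟩ 0 h0
    rw [zero_add] at h1
    have h2 : ((r * r₂ : ℝ) : ℂ) • b (z, 0) = Θ (z, g (z, (r₂ : ℂ) • a (z, 0))) := by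
      rw [h1]
      simp only [hη_def]
      rw [add_sub_cancel, smul_inv_smul₀ hc0]
    have h3 : a (z, 0) ∈ ball (0 : F) 1 := by
      rw [mem_ball_zero_iff]
      exact lt_of_le_of_lt (haρ z hz.1) (by norm_num)
    simp only [hF₂_def, hF₁_def, h2]
    exact (hNs z _ (key z hzW _ h3).1).2.2
  classical
  set G : E → Y := fun z => if z ∈ U₂ ∩ V then F₂ z else F₁ z with hG_def
  have hG : MDifferentiableOn 𝓘(ℂ, E) 𝓘(ℂ, F) G (U₂ ∩ V ∪ U₁) := by
    rintro z (hz | hz)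
    · refine MDifferentiableAt.mdifferentiableWithinAt ?_
      refine ((hF₂ z hz).mdifferentiableAt ((hU₂.inter hV).mem_nhds hz)).congr_of_eventuallyEq ?_
      filter_upwards [(hU₂.inter hV).mem_nhds hz] with x hx
      simp only [hG_def, if_pos hx]
    · refine MDifferentiableAt.mdifferentiableWithinAt ?_
      refine ((hF₁ z hz).mdifferentiableAt (hU₁.mem_nhds hz)).congr_of_eventuallyEq ?_
      filter_upwards [hU₁.mem_nhds hz] with x hx
      by_cases h : x ∈ U₂ ∩ V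
      · simp only [hG_def, if_pos h]
        exact hF₁₂ x ⟨hx, h⟩
      · simp only [hG_def, if_neg h]
  obtain ⟨g', hg', hg'G⟩ := hW₂A G hG (ε / 2) (half_pos hε)
  refine ⟨g', hg', fun z hz => ?_⟩
  have h1 := hg'G z hz.1
  have h2 : G z = F₂ z := by simp only [hG_def, if_pos hz.2]
  have h3 : dist (F₂ z) (f z) < ε / 2 := by
    rw [← hs0 z (hVU' hz.2.2)]
    refine hcore z (hVXs hz.2.2) _ ?_
    rw [hnorm]
    have h4 : ‖b (z, 0)‖ ≤ θ / (2 * (r * r₂)) :=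
      (hb.2 (z, 0) ⟨hz.2.1, h0⟩).trans (min_le_right _ _)
    calc r * r₂ * ‖b (z, 0)‖ ≤ r * r₂ * (θ / (2 * (r * r₂))) := by gcongr
      _ = θ / 2 := by field_simp
      _ < θ := by linarith
  calc dist (g' z) (f z) ≤ dist (g' z) (G z) + dist (G z) (f z) := dist_triangle _ _ _
    _ < ε / 2 + ε / 2 := by rw [h2] at h1 ⊢; exact add_lt_add h1 h3
    _ = ε := by ring

end

end Pool.Agent.Helper74.OKA
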